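import Mathlib
import Pool.Agent.R252.Plastic.Main

/-!
# A dense plastic subgroup of the `ℓ₁` plane

Transfinite recursion over all `1`-Lipschitz maps `F` of the plane: unless the plane is covered by
countably many sets on which `F(x) - n x` is constant (`n` an integer), a point `x` is put into the
group such that `F(x)` never enters it. If the plane is so covered, then `F(x) = n x + b`.
-/

set_option autoImplicit false

namespace Pool.Agent.Results.MP_f81d0d_gt.PlasticSubgroup

/-- Every non-expansive bijection of `X` onto itself is an isometry. -/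
def IsPlastic (X : Type) [MetricSpace X] : Prop :=
  ∀ f : X → X, Function.Bijective f → (∀ x y, dist (f x) (f y) ≤ dist x y) →
    ∀ x y, dist (f x) (f y) = dist x y

/-- The `ℓ₁` plane `WithLp 1 (ℝ × ℝ)` (its metric is spelled out) has a dense plastic subgroup;
so has every separable real Banach space of dimension at least two. -/
theorem result :
    ((∃ G : AddSubgroup (WithLp 1 (ℝ × ℝ)), Dense (G : Set (WithLp 1 (ℝ × ℝ))) ∧ IsPlastic G) ∧
      (∀ u v : WithLp 1 (ℝ × ℝ), dist u v = |u.fst - v.fst| + |u.snd - v.snd|)) ∧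
    (∀ (E : Type) [NormedAddCommGroup E] [NormedSpace ℝ E] [CompleteSpace E]
      [TopologicalSpace.SeparableSpace E], 1 < Module.rank ℝ E →
      ∃ G : AddSubgroup E, Dense (G : Set E) ∧ IsPlastic G) := by
  have general : ∀ (E : Type) [NormedAddCommGroup E] [NormedSpace ℝ E] [CompleteSpace E]
      [TopologicalSpace.SeparableSpace E], 1 < Module.rank ℝ E →
      ∃ G : AddSubgroup E, Dense (G : Set E) ∧ IsPlastic G := by
    intro E _ _ _ _ hE
    have : SecondCountableTopology E := UniformSpace.secondCountable_of_separable E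
    have hnt : Nontrivial E := by
      rw [← rank_pos_iff_nontrivial (R := ℝ)]
      exact lt_trans zero_lt_one hE
    obtain ⟨u, hu⟩ := exists_ne (0 : E)
    obtain ⟨w, hw⟩ := exists_linearIndependent_pair_of_one_lt_rank hE hu
    apply Pool.Agent.R252.Plastic.exists_plastic (u := u) (w := w)
    intro a b hab
    have h1 := LinearIndependent.pair_iff.1 hw a (-b) (by rw [hab]; simp)
    exact ⟨h1.1, neg_eq_zero.1 h1.2⟩
  refine ⟨⟨general _ ?_, ?_⟩, general⟩
  · have h1 : Module.rank ℝ (WithLp 1 (ℝ × ℝ)) = Module.rank ℝ (ℝ × ℝ) :=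
      (WithLp.linearEquiv 1 ℝ (ℝ × ℝ)).rank_eq
    rw [h1, rank_prod', Module.rank_self, one_add_one_eq_two]
    exact Cardinal.one_lt_two
  · intro u v
    rw [WithLp.prod_dist_eq_add (by norm_num)]
    simp [Real.dist_eq]

end Pool.Agent.Results.MP_f81d0d_gt.PlasticSubgroup
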